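import Pool.Agent.Helper20.FR.St

/-!
# Project R20, module PH: the diagonal form of Phillips' lemma
-/

set_option autoImplicit false

open Topology Filter

namespace Pool.Agent.Helper94.R20

open Pool.Agent.Helper20.FA
open Pool.Agent.Helper20.FR

/-- Step (a): a bounded functional is small on all subsets of some infinite subset. -/
private theorem small_on (φ : Bd →ₗ[ℂ] ℂ) (C : ℝ) (hC0 : 0 ≤ C) (hC : ∀ b, ‖φ b‖ ≤ C * ‖b‖)
    (Q : Set ℕ) (hQ : Q.Infinite) (δ : ℝ) (hδ : 0 < δ) :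
    ∃ Q' ⊆ Q, Q'.Infinite ∧ ∀ S ⊆ Q', ‖φ (indB S)‖ ≤ δ := by
  classical
  by_contra hcon
  push Not at hcon
  obtain ⟨K, hK⟩ := exists_nat_gt (C / δ)
  have hK' : C < K * δ := (div_lt_iff₀ hδ).1 hK
  have : Infinite Q := hQ.to_subtype
  let e : ℕ ↪ Q := Infinite.natEmbedding Q
  let R : ℕ → Set ℕ := fun i => Set.range fun j : ℕ => ((e (Nat.pair i j) : Q) : ℕ)
  have hRsub : ∀ i, R i ⊆ Q := by
    rintro i _ ⟨j, rfl⟩
    exact (e (Nat.pair i j)).2
  have hRinf : ∀ i, (R i).Infinite := by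
    intro i
    apply Set.infinite_range_of_injective
    intro a b hab
    have h1 := e.injective (Subtype.ext hab)
    have h2 := congrArg Nat.unpair h1
    rw [Nat.unpair_pair, Nat.unpair_pair] at h2
    exact (Prod.ext_iff.1 h2).2
  have hRdis : ∀ i i' m, m ∈ R i → m ∈ R i' → i = i' := by
    rintro i i' m ⟨j, hj⟩ ⟨j', hj'⟩
    have h0 : ((e (Nat.pair i j) : Q) : ℕ) = ((e (Nat.pair i' j') : Q) : ℕ) := hj.trans hj'.symm
    have h1 := e.injective (Subtype.ext h0)
    have h2 := congrArg Nat.unpair h1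
    rw [Nat.unpair_pair, Nat.unpair_pair] at h2
    exact (Prod.ext_iff.1 h2).1
  have hex : ∀ i, ∃ S ⊆ R i, δ < ‖φ (indB S)‖ := fun i => hcon (R i) (hRsub i) (hRinf i)
  choose S hSR hSδ using hex
  let z : ℕ → ℂ := fun i => φ (indB (S i))
  have hz : ∀ i, 0 < ‖z i‖ := fun i => hδ.trans (hSδ i)
  let c : ℕ → ℂ := fun i => (starRingEnd ℂ) (z i) / (‖z i‖ : ℂ)
  have hcn : ∀ i, ‖c i‖ = 1 := by
    intro i
    show ‖(starRingEnd ℂ) (z i) / (‖z i‖ : ℂ)‖ = 1
    rw [norm_div, RCLike.norm_conj, Complex.norm_real, norm_norm, div_self (hz i).ne']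
  have hcz : ∀ i, c i * z i = ((‖z i‖ : ℝ) : ℂ) := by
    intro i
    show (starRingEnd ℂ) (z i) / (‖z i‖ : ℂ) * z i = ((‖z i‖ : ℝ) : ℂ)
    have h1 : (‖z i‖ : ℂ) ≠ 0 := by
      exact_mod_cast (hz i).ne'
    rw [div_mul_eq_mul_div, mul_comm ((starRingEnd ℂ) (z i)), Complex.mul_conj, div_eq_iff h1,
      Complex.normSq_eq_norm_sq]
    push_cast
    ring
  let b : Bd := ∑ i ∈ Finset.range K, c i • indB (S i)
  have hb : ‖b‖ ≤ 1 := by
    refine (BoundedContinuousFunction.norm_le zero_le_one).2 fun m => ?_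
    have hbm : b m = ∑ i ∈ Finset.range K, c i * (if m ∈ S i then 1 else 0) := by
      show (∑ i ∈ Finset.range K, c i • indB (S i) : Bd) m = _
      rw [BoundedContinuousFunction.coe_sum, Finset.sum_apply]
      refine Finset.sum_congr rfl fun i _ => ?_
      show c i • indB (S i) m = _
      rw [smul_eq_mul, indB_apply]
    rw [hbm]
    by_cases hm : ∃ i ∈ Finset.range K, m ∈ S i
    · obtain ⟨i, hi, hmi⟩ := hm
      rw [Finset.sum_eq_single_of_mem i hi, if_pos hmi, mul_one, hcn]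
      intro i' _ hne
      rw [if_neg, mul_zero]
      intro hmi'
      exact hne (hRdis i' i m (hSR i' hmi') (hSR i hmi))
    · rw [Finset.sum_eq_zero, norm_zero]
      · exact zero_le_one
      · intro i hi
        rw [if_neg (fun h => hm ⟨i, hi, h⟩), mul_zero]
  have hφb : φ b = ((∑ i ∈ Finset.range K, ‖z i‖ : ℝ) : ℂ) := by
    show φ (∑ i ∈ Finset.range K, c i • indB (S i)) = _
    rw [map_sum]
    push_cast
    refine Finset.sum_congr rfl fun i _ => ?_
    rw [map_smul, smul_eq_mul]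
    exact hcz i
  have h1 := hC b
  rw [hφb, Complex.norm_real] at h1
  have h2 : (K : ℝ) * δ ≤ ∑ i ∈ Finset.range K, ‖z i‖ := by
    have h3 : ∑ _i ∈ Finset.range K, δ ≤ ∑ i ∈ Finset.range K, ‖z i‖ :=
      Finset.sum_le_sum fun i _ => (hSδ i).le
    rw [Finset.sum_const, Finset.card_range, nsmul_eq_mul] at h3
    exact h3
  have h4 : ∑ i ∈ Finset.range K, ‖z i‖ ≤ ‖∑ i ∈ Finset.range K, ‖z i‖‖ := Real.le_norm_self _
  have h5 : C * ‖b‖ ≤ C * 1 := mul_le_mul_of_nonneg_left hb hC0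
  linarith

theorem hPH : StPH := by
  classical
  intro T C hC0 hC h0
  by_contra hcon
  rw [Metric.tendsto_atTop] at hcon
  push Not at hcon
  obtain ⟨ε, hε, hbad⟩ := hcon
  let P : Set ℕ := {n | ε ≤ ‖T (unB n) n‖}
  have hP : P.Infinite := by
    rw [← Nat.frequently_atTop_iff_infinite, frequently_atTop]
    intro N
    obtain ⟨n, hn, h⟩ := hbad N
    rw [dist_zero_right] at h
    exact ⟨n, hn, h⟩
  have hstep : ∀ (F : Finset ℕ) (Q : Set ℕ), Q.Infinite → ∃ (n : ℕ) (Q' : Set ℕ),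
      n ∈ Q ∧ Q' ⊆ Q ∧ Q'.Infinite ∧ (∀ a ∈ F, a < n) ∧
      (∑ a ∈ F, ‖T (unB a) n‖ ≤ ε / 4) ∧ (∀ x ∈ Q', n < x) ∧
      ∀ S ⊆ Q', ‖T (indB S) n‖ ≤ ε / 4 := by
    intro F Q hQ
    have h1 : Tendsto (fun m => ∑ a ∈ F, ‖T (unB a) m‖) atTop (𝓝 0) := by
      have h2 := tendsto_finsetSum F (fun a _ => (h0 (unB a)).norm)
      simpa using h2
    have h3 : ∀ᶠ m in atTop, ∑ a ∈ F, ‖T (unB a) m‖ ≤ ε / 4 :=
      h1.eventually (Iic_mem_nhds (by positivity))
    have h4 : ∀ᶠ m in atTop, ∀ a ∈ F, a < m := by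
      refine (eventually_gt_atTop (F.sup id)).mono fun m hm a ha => ?_
      exact lt_of_le_of_lt (Finset.le_sup (f := id) ha) hm
    obtain ⟨n, hnQ, h5, h6⟩ :=
      ((Nat.frequently_atTop_iff_infinite.2 hQ).and_eventually (h3.and h4)).exists
    have h7 : (Q ∩ Set.Ioi n).Infinite := by
      have h8 : (Q \ Set.Iic n).Infinite := hQ.sdiff (Set.finite_Iic n)
      refine h8.mono ?_
      rintro x ⟨hx, hx2⟩
      exact ⟨hx, Set.mem_Ioi.2 (not_le.1 fun h => hx2 (Set.mem_Iic.2 h))⟩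
    obtain ⟨Q', hQ', hQi, hS⟩ := small_on ((LinearMap.proj n).comp T) C hC0 (fun b => hC b n)
      (Q ∩ Set.Ioi n) h7 (ε / 4) (by positivity)
    exact ⟨n, Q', hnQ, fun x hx => (hQ' hx).1, hQi, h6, h5, fun x hx => (hQ' hx).2, hS⟩
  choose! nf Qf hs using hstep
  let st : ℕ → Finset ℕ × Set ℕ := fun i =>
    Nat.rec (∅, P) (fun _ s => (insert (nf s.1 s.2) s.1, Qf s.1 s.2)) i
  have hst0 : st 0 = (∅, P) := rfl
  have hst1 : ∀ i, st (i + 1) = (insert (nf (st i).1 (st i).2) (st i).1, Qf (st i).1 (st i).2) :=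
    fun i => rfl
  have hinf : ∀ i, (st i).2.Infinite := by
    intro i
    induction i with
    | zero => exact hP
    | succ i ih =>
      rw [hst1]
      exact (hs (st i).1 (st i).2 ih).2.2.1
  let n : ℕ → ℕ := fun i => nf (st i).1 (st i).2
  have hnd : ∀ i, n i = nf (st i).1 (st i).2 := fun i => rfl
  have hsi := fun i => hs (st i).1 (st i).2 (hinf i)
  have hQd : ∀ i, (st (i + 1)).2 = Qf (st i).1 (st i).2 := fun i => rfl
  have hFd : ∀ i, (st (i + 1)).1 = insert (n i) (st i).1 := fun i => rfl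
  have hnest : ∀ i j, i ≤ j → (st j).2 ⊆ (st i).2 := by
    intro i j hij
    induction j, hij using Nat.le_induction with
    | base => exact subset_rfl
    | succ j _ ih => exact ((hsi j).2.1).trans ih
  have hnP : ∀ i, n i ∈ P := fun i => hnest 0 i (Nat.zero_le i) (hsi i).1
  have hF1 : ∀ j i, j < i → n j ∈ (st i).1 := by
    intro j i hji
    induction i, hji using Nat.le_induction with
    | base =>
      rw [hFd]
      exact Finset.mem_insert_self _ _
    | succ i _ ih =>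
      rw [hFd]
      exact Finset.mem_insert_of_mem ih
  have hF2 : ∀ i, ∀ a ∈ (st i).1, ∃ j, a = n j := by
    intro i
    induction i with
    | zero =>
      intro a ha
      rw [hst0] at ha
      exact absurd ha (Finset.notMem_empty a)
    | succ i ih =>
      intro a ha
      rw [hFd, Finset.mem_insert] at ha
      rcases ha with rfl | ha
      · exact ⟨i, rfl⟩
      · exact ih a ha
  have hmono : StrictMono n := by
    apply strictMono_nat_of_lt_succ
    intro i
    exact (hsi (i + 1)).2.2.2.1 (n i) (hF1 i (i + 1) (Nat.lt_succ_self i))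
  let S : Set ℕ := Set.range n
  have hdec : ∀ i, indB S = (∑ a ∈ (st i).1, unB a) + unB (n i) + indB (S ∩ (st (i + 1)).2) := by
    intro i
    ext m
    rw [BoundedContinuousFunction.coe_add, BoundedContinuousFunction.coe_add,
      BoundedContinuousFunction.coe_sum, Pi.add_apply, Pi.add_apply, Finset.sum_apply,
      indB_apply, indB_apply, unB_apply]
    simp only [unB_apply]
    rw [Finset.sum_ite_eq]
    have hlt : ∀ x ∈ (st (i + 1)).2, n i < x := fun x hx => (hsi i).2.2.2.2.2.1 x hx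
    have hFlt : ∀ a ∈ (st i).1, a < n i := (hsi i).2.2.2.1
    by_cases h1 : m ∈ (st i).1
    · have h2 : m < n i := hFlt m h1
      have h3 : m ∉ (st (i + 1)).2 := fun h => absurd (hlt m h) (not_lt.2 h2.le)
      obtain ⟨j, hj⟩ := hF2 i m h1
      have hmS : m ∈ S := ⟨j, hj.symm⟩
      rw [if_pos hmS, if_pos h1, if_neg h2.ne, if_neg (fun h => h3 h.2)]
      ring
    · by_cases h2 : m = n i
      · have h3 : m ∉ (st (i + 1)).2 := fun h => absurd (hlt m h) (by rw [h2]; exact lt_irrefl _)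
        have hmS : m ∈ S := ⟨i, h2.symm⟩
        rw [if_pos hmS, if_neg h1, if_pos h2, if_neg (fun h => h3 h.2)]
        ring
      · rw [if_neg h1, if_neg h2]
        by_cases h3 : m ∈ S
        · have h4 : m ∈ (st (i + 1)).2 := by
            obtain ⟨j, rfl⟩ := h3
            have h5 : ¬ j < i := fun h => h1 (hF1 j i h)
            have h6 : j ≠ i := fun h => h2 (by rw [h])
            exact hnest (i + 1) j (by omega) (hsi j).1
          rw [if_pos h3, if_pos ⟨h3, h4⟩]
          ring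
        · rw [if_neg h3, if_neg (fun h => h3 h.1)]
          ring
  have hlow : ∀ i, ε / 2 ≤ ‖T (indB S) (n i)‖ := by
    intro i
    have h1 : T (indB S) (n i) = (∑ a ∈ (st i).1, T (unB a) (n i)) + T (unB (n i)) (n i) +
        T (indB (S ∩ (st (i + 1)).2)) (n i) := by
      rw [hdec i, map_add, map_add, map_sum, Pi.add_apply, Pi.add_apply, Finset.sum_apply]
    have h2 : ‖∑ a ∈ (st i).1, T (unB a) (n i)‖ ≤ ε / 4 :=
      (norm_sum_le _ _).trans (hsi i).2.2.2.2.1
    have h3 : ‖T (indB (S ∩ (st (i + 1)).2)) (n i)‖ ≤ ε / 4 :=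
      (hsi i).2.2.2.2.2.2 _ Set.inter_subset_right
    have h4 : ε ≤ ‖T (unB (n i)) (n i)‖ := hnP i
    have h5 : T (unB (n i)) (n i) = T (indB S) (n i) - (∑ a ∈ (st i).1, T (unB a) (n i)) -
        T (indB (S ∩ (st (i + 1)).2)) (n i) := by
      rw [h1]
      ring
    have h6 : ‖T (unB (n i)) (n i)‖ ≤ ‖T (indB S) (n i)‖ + ‖∑ a ∈ (st i).1, T (unB a) (n i)‖ +
        ‖T (indB (S ∩ (st (i + 1)).2)) (n i)‖ := by
      rw [h5]
      refine (norm_sub_le _ _).trans ?_
      gcongr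
      exact norm_sub_le _ _
    linarith
  have h7 := (h0 (indB S)).norm
  rw [norm_zero] at h7
  have h8 : ∀ᶠ m in atTop, ‖T (indB S) m‖ < ε / 2 := h7.eventually (gt_mem_nhds (by positivity))
  obtain ⟨N, hN⟩ := eventually_atTop.1 h8
  have h9 := hN (n N) (hmono.id_le N)
  exact absurd (hlow N) (not_le.2 h9)

end Pool.Agent.Helper94.R20
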